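import Pool.Agent.QC.LS.Par

/-!
# Parallel sections: lifting of homotopies, sections over star shaped sets
-/

namespace Pool.Agent.QC

open Set Filter Topology

namespace LS

variable {E W : Type*} [TopologicalSpace E] {A : LS E W} {T T' : Type*} [TopologicalSpace T]
  [TopologicalSpace T'] {S S' : Set T}

/-- Two parallel sections which agree at a point agree near it. -/
theorem Par.eventuallyEq_lift {h : T → E} {u u' : T → W} (hh : ContinuousOn h S)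
    (hX : MapsTo h S A.X) (hu : A.Par h S u) (hu' : A.Par h S u') {t : T} (ht : t ∈ S)
    (he : u t = u' t) : ∀ᶠ s in 𝓝[S] t, u s = u' s := by
  obtain ⟨N, y, hN, hs, hev⟩ := hu t ht
  obtain ⟨N', y', hN', hs', hev'⟩ := hu' t ht
  obtain ⟨N0, ho, hpN, hsub, hX0, hc, -⟩ := A.nice (h t) (hX ht) (N ∩ N')
    (((A.sol_open hs).inter (A.sol_open hs')).mem_nhds ⟨hN, hN'⟩)
  have e1 := hev.self_of_nhdsWithin ht
  have e2 := hev'.self_of_nhdsWithin ht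
  have hE : EqOn y y' N0 := A.unique hc hX0 (A.sol_mono hs ho fun x hx => (hsub hx).1)
    (A.sol_mono hs' ho fun x hx => (hsub hx).2) hpN (by rw [← e1, ← e2, he])
  have hmem : ∀ᶠ s in 𝓝[S] t, h s ∈ N0 := (hh t ht) (ho.mem_nhds hpN)
  filter_upwards [hev, hev', hmem] with s h3 h4 h5
  rw [h3, h4, hE h5]

/-- one step of the lifting -/
private theorem lift_step {h : T × ℝ → E} (hh : ContinuousOn h (S ×ˢ Icc 0 1))
    (hX : MapsTo h (S ×ˢ Icc 0 1) A.X) {u₀ : T → W} {t₀ : T} (ht₀ : t₀ ∈ S) {O : Set T}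
    (hO : IsOpen O) (htO : t₀ ∈ O) {N : Set E}
    (hNX : ∀ q ∈ N, ∀ w ∈ A.V q, ∃ y, A.sol N y ∧ y q = w)
    {s₁ s₂ : ℝ} (h0 : 0 ≤ s₁) (h12 : s₁ ≤ s₂) (h2 : s₂ ≤ 1)
    (hmap : ∀ t ∈ S ∩ O, ∀ s ∈ Icc s₁ s₂, h (t, s) ∈ N)
    (hP : ∃ O : Set T, IsOpen O ∧ t₀ ∈ O ∧ ∃ u : T × ℝ → W, A.Par h ((S ∩ O) ×ˢ Icc 0 s₁) u ∧
      ∀ t ∈ S ∩ O, u (t, 0) = u₀ t) :
    ∃ O : Set T, IsOpen O ∧ t₀ ∈ O ∧ ∃ u : T × ℝ → W, A.Par h ((S ∩ O) ×ˢ Icc 0 s₂) u ∧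
      ∀ t ∈ S ∩ O, u (t, 0) = u₀ t := by
  classical
  obtain ⟨O₁, hO₁, ht₁, u₁, hu₁, hu₁0⟩ := hP
  have hs₁m : s₁ ∈ Icc s₁ s₂ := ⟨le_rfl, h12⟩
  have hs₁0 : s₁ ∈ Icc (0 : ℝ) s₁ := ⟨h0, le_rfl⟩
  obtain ⟨y, hy, hyq⟩ := hNX (h (t₀, s₁)) (hmap t₀ ⟨ht₀, htO⟩ s₁ hs₁m) (u₁ (t₀, s₁))
    (hu₁.mem (t := (t₀, s₁)) ⟨⟨ht₀, ht₁⟩, hs₁0⟩)
  -- agreement near `t₀` on the slice `s₁`
  have hc : ContinuousOn (fun t : T => (t, s₁)) (S ∩ O ∩ O₁) :=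
    (Continuous.prodMk_left s₁).continuousOn
  have hA1 : A.Par (fun t : T => h (t, s₁)) (S ∩ O ∩ O₁) (fun t => u₁ (t, s₁)) :=
    hu₁.comp (g := fun t : T => (t, s₁)) hc fun t ht => ⟨⟨ht.1.1, ht.2⟩, hs₁0⟩
  have hA2 : A.Par (fun t : T => h (t, s₁)) (S ∩ O ∩ O₁) (fun t => y (h (t, s₁))) :=
    Par.of_sol (h := fun t : T => h (t, s₁)) hy fun t ht => hmap t ht.1 s₁ hs₁m
  have hms : MapsTo (fun t : T => (t, s₁)) (S ∩ O ∩ O₁) (S ×ˢ Icc 0 1) := fun t ht =>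
    ⟨ht.1.1, ⟨h0, h12.trans h2⟩⟩
  have hev : ∀ᶠ t in 𝓝[S ∩ O ∩ O₁] t₀, u₁ (t, s₁) = y (h (t, s₁)) :=
    Par.eventuallyEq_lift (hh.comp hc hms) (hX.comp hms) hA1 hA2 ⟨⟨ht₀, htO⟩, ht₁⟩ hyq.symm
  rw [eventually_nhdsWithin_iff] at hev
  obtain ⟨O₂, hO₂, hO₂o, ht₂⟩ := eventually_nhds_iff.mp hev
  refine ⟨O ∩ O₁ ∩ O₂, (hO.inter hO₁).inter hO₂o, ⟨⟨htO, ht₁⟩, ht₂⟩,
    fun p => if p.2 ≤ s₁ then u₁ p else y (h p), ?_, ?_⟩
  · have hun : (S ∩ (O ∩ O₁ ∩ O₂)) ×ˢ Icc (0 : ℝ) s₂ =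
        (S ∩ (O ∩ O₁ ∩ O₂)) ×ˢ Icc 0 s₁ ∪ (S ∩ (O ∩ O₁ ∩ O₂)) ×ˢ Icc s₁ s₂ := by
      rw [← prod_union, Icc_union_Icc_eq_Icc h0 h12]
    have hsub : (S ∩ (O ∩ O₁ ∩ O₂)) ×ˢ Icc (0 : ℝ) s₂ ⊆ S ×ˢ Icc 0 1 :=
      prod_mono inter_subset_left (Icc_subset_Icc le_rfl h2)
    rw [hun] at hsub ⊢
    refine Par.union (hh.mono hsub) (hX.mono_left hsub) ?_ ?_ ?_ ?_
    · refine (hu₁.mono (prod_mono (fun t ht => ⟨ht.1, ht.2.1.2⟩) le_rfl)).congr ?_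
      intro p hp
      simp [hp.2.2]
    · refine (Par.of_sol (h := h) hy fun p hp => hmap p.1 ⟨hp.1.1, hp.1.2.1.1⟩ p.2 hp.2).congr ?_
      intro p hp
      by_cases hle : p.2 ≤ s₁
      · have he : p.2 = s₁ := le_antisymm hle hp.2.1
        have h3 := hO₂ p.1 hp.1.2.2 ⟨⟨hp.1.1, hp.1.2.1.1⟩, hp.1.2.1.2⟩
        have h4 : p = (p.1, s₁) := Prod.ext rfl he
        simp only [Function.comp_apply]
        rw [if_pos hle, h4, h3]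
      · simp [hle]
    · refine ⟨univ ×ˢ Iic s₁, isClosed_univ.prod isClosed_Iic, ?_⟩
      rw [← hun]
      ext p
      simp only [mem_prod, mem_inter_iff, mem_Icc, mem_univ, mem_Iic, true_and]
      constructor
      · rintro ⟨ha, hb, hc⟩
        exact ⟨hc, ha, hb, hc.trans h12⟩
      · rintro ⟨hc, ha, hb, -⟩
        exact ⟨ha, hb, hc⟩
    · refine ⟨univ ×ˢ Ici s₁, isClosed_univ.prod isClosed_Ici, ?_⟩
      rw [← hun]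
      ext p
      simp only [mem_prod, mem_inter_iff, mem_Icc, mem_univ, mem_Ici, true_and]
      constructor
      · rintro ⟨ha, hb, hc⟩
        exact ⟨hb, ha, h0.trans hb, hc⟩
      · rintro ⟨hc, ha, -, hb⟩
        exact ⟨ha, hc, hb⟩
  · intro t ht
    have h3 := hu₁0 t ⟨ht.1, ht.2.1.2⟩
    simp [h0, h3]

/-- lifting near one point of the base -/
private theorem lift_local {h : T × ℝ → E} (hh : ContinuousOn h (S ×ˢ Icc 0 1))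
    (hX : MapsTo h (S ×ˢ Icc 0 1) A.X) {u₀ : T → W} (hu : A.Par (fun t => h (t, 0)) S u₀)
    {t₀ : T} (ht₀ : t₀ ∈ S) :
    ∃ O : Set T, IsOpen O ∧ t₀ ∈ O ∧ ∃ u : T × ℝ → W, A.Par h ((S ∩ O) ×ˢ Icc 0 1) u ∧
      ∀ t ∈ S ∩ O, u (t, 0) = u₀ t := by
  set P : ℝ → Prop := fun s => ∃ O : Set T, IsOpen O ∧ t₀ ∈ O ∧ ∃ u : T × ℝ → W,
    A.Par h ((S ∩ O) ×ˢ Icc 0 s) u ∧ ∀ t ∈ S ∩ O, u (t, 0) = u₀ t with hP
  have hmono : ∀ s s' : ℝ, s ≤ s' → P s' → P s := by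
    rintro s s' hs ⟨O, hO, ht, u, hu, hu0⟩
    exact ⟨O, hO, ht, u, hu.mono (prod_mono le_rfl (Icc_subset_Icc le_rfl hs)), hu0⟩
  have hzero : P 0 := by
    refine ⟨univ, isOpen_univ, mem_univ _, fun p => u₀ p.1, ?_, fun t _ => rfl⟩
    have h1 : A.Par ((fun t => h (t, 0)) ∘ (Prod.fst : T × ℝ → T))
        ((S ∩ univ) ×ˢ Icc (0 : ℝ) 0) (u₀ ∘ Prod.fst) :=
      hu.comp (g := Prod.fst) continuous_fst.continuousOn fun p hp => hp.1.1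
    refine h1.congr_map ?_
    intro p hp
    have he : p.2 = 0 := le_antisymm hp.2.2 hp.2.1
    have h4 : p = (p.1, 0) := Prod.ext rfl he
    simp only [Function.comp_apply]
    rw [← h4]
  have hloc : ∀ s ∈ Icc (0 : ℝ) 1, ∀ᶠ s' in 𝓝[Icc (0 : ℝ) 1] s, (P s ↔ P s') := by
    intro s hs
    obtain ⟨N, ho, hpN, -, hNX, hc, hext⟩ := A.nice (h (t₀, s)) (hX ⟨ht₀, hs⟩) univ univ_mem
    have hev : ∀ᶠ p in 𝓝[S ×ˢ Icc (0 : ℝ) 1] (t₀, s), h p ∈ N :=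
      (hh (t₀, s) ⟨ht₀, hs⟩) (ho.mem_nhds hpN)
    rw [nhdsWithin_prod_eq] at hev
    obtain ⟨U, hU, B, hB, hUB⟩ := mem_prod_iff.mp hev
    obtain ⟨O, hOo, htO, hOU⟩ := mem_nhdsWithin.mp hU
    obtain ⟨B', hB'o, hsB', hB'B⟩ := mem_nhdsWithin.mp hB
    obtain ⟨δ, hδ, hball⟩ := Metric.isOpen_iff.mp hB'o s hsB'
    have hstep : ∀ s₁ ∈ Icc (0 : ℝ) 1, ∀ s₂ ∈ Icc (0 : ℝ) 1, s₁ ∈ Metric.ball s δ →
        s₂ ∈ Metric.ball s δ → P s₁ → P s₂ := by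
      intro s₁ hs₁ s₂ hs₂ hb₁ hb₂ h1
      rcases le_total s₂ s₁ with hle | hle
      · exact hmono _ _ hle h1
      · refine lift_step hh hX ht₀ hOo htO hext hs₁.1 hle hs₂.2 ?_ h1
        intro t ht r hr
        refine hUB (mk_mem_prod (hOU ⟨ht.2, ht.1⟩) (hB'B ⟨hball ?_, hs₁.1.trans hr.1,
          hr.2.trans hs₂.2⟩))
        rw [Real.ball_eq_Ioo] at hb₁ hb₂ ⊢
        exact ⟨hb₁.1.trans_le hr.1, hr.2.trans_lt hb₂.2⟩
    filter_upwards [self_mem_nhdsWithin, mem_nhdsWithin_of_mem_nhds (Metric.ball_mem_nhds s hδ)]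
      with s' hs' hb'
    exact ⟨hstep s hs s' hs' (Metric.mem_ball_self hδ) hb',
      hstep s' hs' s hs hb' (Metric.mem_ball_self hδ)⟩
  have h01 : P 0 ↔ P 1 := by
    refine isPreconnected_Icc.induction₂ (fun x y => (P x ↔ P y)) hloc ?_ ?_
      (left_mem_Icc.mpr zero_le_one) (right_mem_Icc.mpr zero_le_one)
    · intro x y z _ _ _ h1 h2
      exact h1.trans h2
    · intro x y _ _ h1
      exact h1.symm
  exact h01.mp hzero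

/-- Lifting of homotopies; `T` is an arbitrary topological space. -/
theorem Par.lift {h : T × ℝ → E} (hh : ContinuousOn h (S ×ˢ Icc 0 1))
    (hX : MapsTo h (S ×ˢ Icc 0 1) A.X) {u₀ : T → W} (hu : A.Par (fun t => h (t, 0)) S u₀) :
    ∃ u : T × ℝ → W, A.Par h (S ×ˢ Icc 0 1) u ∧ ∀ t ∈ S, u (t, 0) = u₀ t := by
  classical
  have H : ∀ t : T, ∃ O : Set T, ∃ u : T × ℝ → W, t ∈ S → IsOpen O ∧ t ∈ O ∧
      A.Par h ((S ∩ O) ×ˢ Icc 0 1) u ∧ ∀ t ∈ S ∩ O, u (t, 0) = u₀ t := by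
    intro t
    by_cases ht : t ∈ S
    · obtain ⟨O, h1, h2, u, h3, h4⟩ := lift_local hh hX hu ht
      exact ⟨O, u, fun _ => ⟨h1, h2, h3, h4⟩⟩
    · by_cases hW : Nonempty W
      · exact ⟨univ, fun _ => Classical.choice hW, fun h => absurd h ht⟩
      · exact ⟨univ, fun p => absurd ⟨u₀ p.1⟩ hW, fun h => absurd h ht⟩
  choose O u hOu using H
  refine ⟨fun p => u p.1 p, ?_, ?_⟩
  · refine Par.of_local ?_
    rintro ⟨t₀, s₀⟩ ⟨ht₀, hs₀⟩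
    obtain ⟨ho, htO, hP, hP0⟩ := hOu t₀ ht₀
    refine ⟨O t₀ ×ˢ univ, mem_nhdsWithin_of_mem_nhds ((ho.prod isOpen_univ).mem_nhds
      ⟨htO, mem_univ _⟩), ?_⟩
    have hsub : S ×ˢ Icc (0 : ℝ) 1 ∩ O t₀ ×ˢ univ ⊆ (S ∩ O t₀) ×ˢ Icc 0 1 := fun p hp =>
      ⟨⟨hp.1.1, hp.2.1⟩, hp.1.2⟩
    refine (hP.mono hsub).congr ?_
    intro p hp
    obtain ⟨ho', htO', hP', hP0'⟩ := hOu p.1 hp.1.1
    have hc : ContinuousOn (fun s : ℝ => (p.1, s)) (Icc (0 : ℝ) 1) :=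
      (Continuous.prodMk_right p.1).continuousOn
    have hm : MapsTo (fun s : ℝ => (p.1, s)) (Icc (0 : ℝ) 1) (S ×ˢ Icc (0 : ℝ) 1) :=
      fun s hs => ⟨hp.1.1, hs⟩
    have h1 : A.Par (h ∘ fun s : ℝ => (p.1, s)) (Icc (0 : ℝ) 1) (u t₀ ∘ fun s : ℝ => (p.1, s)) :=
      hP.comp hc fun s hs => ⟨⟨hp.1.1, hp.2.1⟩, hs⟩
    have h2 : A.Par (h ∘ fun s : ℝ => (p.1, s)) (Icc (0 : ℝ) 1) (u p.1 ∘ fun s : ℝ => (p.1, s)) :=
      hP'.comp hc fun s hs => ⟨⟨hp.1.1, htO'⟩, hs⟩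
    have h3 := Par.unique isPreconnected_Icc (hh.comp hc hm) (hX.comp hm) h1 h2
      (left_mem_Icc.mpr zero_le_one)
      (by
        simp only [Function.comp_apply]
        rw [hP0 p.1 ⟨hp.1.1, hp.2.1⟩, hP0' p.1 ⟨hp.1.1, htO'⟩])
    exact h3 hp.1.2
  · intro t ht
    obtain ⟨ho, htO, hP, hP0⟩ := hOu t ht
    exact hP0 t ⟨ht, htO⟩

/-- Sections over star shaped sets. -/
theorem Par.exists_star {T : Type*} [AddCommGroup T] [Module ℝ T] [TopologicalSpace T]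
    [IsTopologicalAddGroup T] [ContinuousSMul ℝ T] {h : T → E} {S : Set T} {t₀ : T}
    (hS : StarConvex ℝ t₀ S) (ht : t₀ ∈ S) (hh : ContinuousOn h S) (hX : MapsTo h S A.X) {w : W}
    (hw : w ∈ A.V (h t₀)) : ∃ u, A.Par h S u ∧ u t₀ = w := by
  obtain ⟨N, ho, hpN, -, hNX, hcN, hext⟩ := A.nice (h t₀) (hX ht) univ univ_mem
  obtain ⟨y, hy, hyw⟩ := hext (h t₀) hpN w hw
  have hg : Continuous fun p : T × ℝ => t₀ + p.2 • (p.1 - t₀) := by fun_prop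
  have hm : MapsTo (fun p : T × ℝ => t₀ + p.2 • (p.1 - t₀)) (S ×ˢ Icc 0 1) S := by
    rintro ⟨t, s⟩ ⟨hts, hs0, hs1⟩
    have h1 := hS hts (sub_nonneg.mpr hs1) hs0 (sub_add_cancel 1 s)
    have h2 : t₀ + s • (t - t₀) = (1 - s) • t₀ + s • t := by
      rw [smul_sub, sub_smul, one_smul]
      abel
    simp only
    rw [h2]
    exact h1
  have hcomp : ContinuousOn (h ∘ fun p : T × ℝ => t₀ + p.2 • (p.1 - t₀)) (S ×ˢ Icc 0 1) :=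
    hh.comp hg.continuousOn hm
  have hbase : A.Par (fun t => (h ∘ fun p : T × ℝ => t₀ + p.2 • (p.1 - t₀)) (t, 0)) S
      (fun _ => w) := by
    have h1 : A.Par (fun _ : T => h t₀) S (y ∘ fun _ : T => h t₀) :=
      Par.of_sol (h := fun _ : T => h t₀) hy fun _ _ => hpN
    refine (h1.congr_map ?_).congr ?_
    · intro t _
      simp
    · intro t _
      simp [hyw]
  obtain ⟨u, hu, hu0⟩ := Par.lift hcomp (hX.comp hm) hbase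
  refine ⟨fun t => u (t, 1), ?_, ?_⟩
  · have hc : ContinuousOn (fun t : T => (t, (1 : ℝ))) S :=
      (Continuous.prodMk_left (1 : ℝ)).continuousOn
    have h1 := hu.comp (g := fun t : T => (t, (1 : ℝ))) hc
      fun t hts => ⟨hts, zero_le_one, le_rfl⟩
    refine h1.congr_map ?_
    intro t _
    simp
  · have hc : ContinuousOn (fun s : ℝ => (t₀, s)) (Icc (0 : ℝ) 1) :=
      (Continuous.prodMk_right t₀).continuousOn
    have hm' : MapsTo (fun s : ℝ => (t₀, s)) (Icc (0 : ℝ) 1) (S ×ˢ Icc (0 : ℝ) 1) :=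
      fun s hs => ⟨ht, hs⟩
    have h1 := hu.comp hc hm'
    have h2 : A.Par ((h ∘ fun p : T × ℝ => t₀ + p.2 • (p.1 - t₀)) ∘ fun s : ℝ => (t₀, s))
        (Icc (0 : ℝ) 1) (fun _ : ℝ => w) := by
      have h3 : A.Par (fun _ : ℝ => h t₀) (Icc (0 : ℝ) 1) (y ∘ fun _ : ℝ => h t₀) :=
        Par.of_sol (h := fun _ : ℝ => h t₀) hy fun _ _ => hpN
      refine (h3.congr_map ?_).congr ?_
      · intro s _
        simp
      · intro s _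
        simp [hyw]
    have h4 := Par.unique isPreconnected_Icc (hcomp.comp hc hm') ((hX.comp hm).comp hm') h1 h2
      (left_mem_Icc.mpr zero_le_one) (by simpa using hu0 t₀ ht)
    simpa using h4 (right_mem_Icc.mpr zero_le_one)

end LS

end Pool.Agent.QC
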