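import Pool.Agent.QC.LS.Defs

/-!
# Parallel sections: uniqueness, lifting
-/

namespace Pool.Agent.QC

open Set Filter Topology

namespace LS

variable {E W : Type*} [TopologicalSpace E] {A : LS E W} {T T' : Type*} [TopologicalSpace T]
  [TopologicalSpace T'] {h : T → E} {S S' : Set T} {u u' : T → W}

theorem Par.mem (hu : A.Par h S u) {t : T} (ht : t ∈ S) : u t ∈ A.V (h t) := by
  obtain ⟨N, y, hN, hs, hev⟩ := hu t ht
  rw [hev.self_of_nhdsWithin ht]
  exact A.sol_mem hs _ hN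

theorem Par.congr (hu : A.Par h S u) (he : EqOn u u' S) : A.Par h S u' := by
  intro t ht
  obtain ⟨N, y, hN, hs, hev⟩ := hu t ht
  refine ⟨N, y, hN, hs, ?_⟩
  filter_upwards [hev, self_mem_nhdsWithin] with s h1 h2
  rw [← he h2, h1]

theorem Par.congr_map {h' : T → E} (hu : A.Par h S u) (he : EqOn h h' S) : A.Par h' S u := by
  intro t ht
  obtain ⟨N, y, hN, hs, hev⟩ := hu t ht
  refine ⟨N, y, by rw [← he ht]; exact hN, hs, ?_⟩
  filter_upwards [hev, self_mem_nhdsWithin] with s h1 h2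
  rw [← he h2, h1]

theorem Par.mono (hu : A.Par h S u) (hS : S' ⊆ S) : A.Par h S' u := by
  intro t ht
  obtain ⟨N, y, hN, hs, hev⟩ := hu t (hS ht)
  exact ⟨N, y, hN, hs, hev.filter_mono (nhdsWithin_mono _ hS)⟩

theorem Par.comp (hu : A.Par h S u) {g : T' → T} {R : Set T'} (hg : ContinuousOn g R)
    (hR : MapsTo g R S) : A.Par (h ∘ g) R (u ∘ g) := by
  intro t ht
  obtain ⟨N, y, hN, hs, hev⟩ := hu (g t) (hR ht)
  refine ⟨N, y, hN, hs, ?_⟩
  have h1 : Tendsto g (𝓝[R] t) (𝓝[S] (g t)) := (hg t ht).tendsto_nhdsWithin hR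
  exact h1.eventually hev

/-- A solution on `N` is parallel over every continuous map into `N`. -/
theorem Par.of_sol {N : Set E} {y : E → W} (hy : A.sol N y) (hS : MapsTo h S N) :
    A.Par h S (y ∘ h) := by
  intro t ht
  exact ⟨N, y, hS ht, hy, Eventually.of_forall fun s => rfl⟩

theorem Par.sol {N : Set E} {y : E → W} (hN : IsOpen N) (hy : A.Par (id : E → E) N y) :
    A.sol N y := by
  refine A.sol_local ?_
  intro p hp
  obtain ⟨N', y', hN', hs, hev⟩ := hy p hp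
  rw [hN.nhdsWithin_eq hp] at hev
  obtain ⟨O, hO, hOo, hpO⟩ := eventually_nhds_iff.mp hev
  refine ⟨N' ∩ N ∩ O, ⟨⟨hN', hp⟩, hpO⟩, fun q hq => hq.1.2, ?_⟩
  have h1 : A.sol (N' ∩ N ∩ O) y' :=
    A.sol_mono hs (((A.sol_open hs).inter hN).inter hOo) fun q hq => hq.1.1
  exact A.sol_congr h1 fun q hq => (hO q hq.2).symm

/-- Par is local. -/
theorem Par.of_local (hu : ∀ t ∈ S, ∃ O ∈ 𝓝[S] t, A.Par h (S ∩ O) u) : A.Par h S u := by
  intro t ht
  obtain ⟨O, hO, hP⟩ := hu t ht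
  obtain ⟨N, y, hN, hs, hev⟩ := hP t ⟨ht, mem_of_mem_nhdsWithin ht hO⟩
  rw [nhdsWithin_inter_of_mem' hO] at hev
  exact ⟨N, y, hN, hs, hev⟩

/-- two local solutions with the same value agree near the point -/
private theorem par_agree {p : E} (hp : p ∈ A.X) {N N' : Set E} {y y' : E → W} (hN : p ∈ N)
    (hN' : p ∈ N') (hs : A.sol N y) (hs' : A.sol N' y') :
    ∃ N0, IsOpen N0 ∧ p ∈ N0 ∧ ∀ q ∈ N0, y q = y' q → EqOn y y' N0 := by
  obtain ⟨N0, ho, hpN, hsub, hX, hc, -⟩ := A.nice p hp (N ∩ N')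
    (((A.sol_open hs).inter (A.sol_open hs')).mem_nhds ⟨hN, hN'⟩)
  refine ⟨N0, ho, hpN, ?_⟩
  intro q hq he
  exact A.unique hc hX (A.sol_mono hs ho fun x hx => (hsub hx).1)
    (A.sol_mono hs' ho fun x hx => (hsub hx).2) hq he

/-- Union of two relatively closed sets. -/
theorem Par.union {S₁ S₂ : Set T} (hh : ContinuousOn h (S₁ ∪ S₂)) (hX : MapsTo h (S₁ ∪ S₂) A.X)
    (h1 : A.Par h S₁ u) (h2 : A.Par h S₂ u)
    (hc1 : ∃ C, IsClosed C ∧ S₁ = C ∩ (S₁ ∪ S₂)) (hc2 : ∃ C, IsClosed C ∧ S₂ = C ∩ (S₁ ∪ S₂)) :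
    A.Par h (S₁ ∪ S₂) u := by
  intro t ht
  by_cases ht1 : t ∈ S₁
  · by_cases ht2 : t ∈ S₂
    · obtain ⟨N, y, hN, hs, hev⟩ := h1 t ht1
      obtain ⟨N', y', hN', hs', hev'⟩ := h2 t ht2
      obtain ⟨N0, ho, hpN, hag⟩ := par_agree (hX ht) hN hN' hs hs'
      have e : y (h t) = y' (h t) := by
        rw [← hev.self_of_nhdsWithin ht1, hev'.self_of_nhdsWithin ht2]
      have hE := hag _ hpN e
      refine ⟨N, y, hN, hs, ?_⟩
      have hmem : ∀ᶠ s in 𝓝[S₁ ∪ S₂] t, h s ∈ N0 := (hh t ht) (ho.mem_nhds hpN)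
      rw [nhdsWithin_union, eventually_sup] at hmem ⊢
      refine ⟨hev, ?_⟩
      filter_upwards [hev', hmem.2] with s h3 h4
      rw [h3, hE h4]
    · obtain ⟨C, hC, hCe⟩ := hc2
      have htC : t ∉ C := fun hC' => ht2 (hCe ▸ ⟨hC', ht⟩)
      have hm : S₁ ∈ 𝓝[S₁ ∪ S₂] t := by
        filter_upwards [self_mem_nhdsWithin, mem_nhdsWithin_of_mem_nhds
          (hC.isOpen_compl.mem_nhds htC)] with s h3 h4
        rcases h3 with h3 | h3
        · exact h3
        · rw [hCe] at h3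
          exact absurd h3.1 h4
      obtain ⟨N, y, hN, hs, hev⟩ := h1 t ht1
      exact ⟨N, y, hN, hs, hev.filter_mono (nhdsWithin_le_of_mem hm)⟩
  · have ht2 : t ∈ S₂ := ht.resolve_left ht1
    obtain ⟨C, hC, hCe⟩ := hc1
    have htC : t ∉ C := fun hC' => ht1 (hCe ▸ ⟨hC', ht⟩)
    have hm : S₂ ∈ 𝓝[S₁ ∪ S₂] t := by
      filter_upwards [self_mem_nhdsWithin, mem_nhdsWithin_of_mem_nhds
        (hC.isOpen_compl.mem_nhds htC)] with s h3 h4
      rcases h3 with h3 | h3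
      · rw [hCe] at h3
        exact absurd h3.1 h4
      · exact h3
    obtain ⟨N, y, hN, hs, hev⟩ := h2 t ht2
    exact ⟨N, y, hN, hs, hev.filter_mono (nhdsWithin_le_of_mem hm)⟩

/-- Uniqueness. -/
theorem Par.unique (hS : IsPreconnected S) (hh : ContinuousOn h S) (hX : MapsTo h S A.X)
    (hu : A.Par h S u) (hu' : A.Par h S u') {t : T} (ht : t ∈ S) (he : u t = u' t) :
    EqOn u u' S := by
  intro s hs
  refine (hS.induction₂ (fun x y => (u x = u' x ↔ u y = u' y)) ?_ ?_ ?_ ht hs).mp he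
  · intro x hx
    obtain ⟨N, y, hN, hs, hev⟩ := hu x hx
    obtain ⟨N', y', hN', hs', hev'⟩ := hu' x hx
    obtain ⟨N0, ho, hpN, hag⟩ := par_agree (hX hx) hN hN' hs hs'
    have hmem : ∀ᶠ s in 𝓝[S] x, h s ∈ N0 := (hh x hx) (ho.mem_nhds hpN)
    have e1 := hev.self_of_nhdsWithin hx
    have e2 := hev'.self_of_nhdsWithin hx
    filter_upwards [hev, hev', hmem] with s h3 h4 h5
    rw [e1, e2, h3, h4]
    exact ⟨fun e => hag _ hpN e h5, fun e => hag _ h5 e hpN⟩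
  · intro x y z _ _ _ h1 h2
    exact h1.trans h2
  · intro x y _ _ h1
    exact h1.symm

variable [AddCommGroup W] [Module ℂ W]

theorem Par.add (hA : A.Lin) (hh : ContinuousOn h S) (hu : A.Par h S u) (hu' : A.Par h S u') :
    A.Par h S (u + u') := by
  have _ := hh
  intro t ht
  obtain ⟨N, y, hN, hs, hev⟩ := hu t ht
  obtain ⟨N', y', hN', hs', hev'⟩ := hu' t ht
  have ho : IsOpen (N ∩ N') := (A.sol_open hs).inter (A.sol_open hs')
  refine ⟨N ∩ N', y + y', ⟨hN, hN'⟩, hA.add (A.sol_mono hs ho inter_subset_left)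
    (A.sol_mono hs' ho inter_subset_right), ?_⟩
  filter_upwards [hev, hev'] with s h3 h4
  rw [Pi.add_apply, Pi.add_apply, h3, h4]

theorem Par.smul (hA : A.Lin) (c : ℂ) (hu : A.Par h S u) : A.Par h S (c • u) := by
  intro t ht
  obtain ⟨N, y, hN, hs, hev⟩ := hu t ht
  refine ⟨N, c • y, hN, hA.smul c hs, ?_⟩
  filter_upwards [hev] with s h3
  rw [Pi.smul_apply, Pi.smul_apply, h3]

end LS

end Pool.Agent.QC
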