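import Pool.Agent.QC.LS.Lift

/-!
# Gauge transformations of local systems
-/

set_option autoImplicit false

namespace Pool.Agent.QC

open Set Filter Topology

section

variable {E W W' : Type*} [TopologicalSpace E]

/-- The local system `A` with the values changed by the bijections `G p`. -/
def LS.gauge (A : LS E W) (G : E → W ≃ W') : LS E W' where
  X := A.X
  V p := {w | (G p).symm w ∈ A.V p}
  sol N y := A.sol N (fun p => (G p).symm (y p))
  isOpen_X := A.isOpen_X
  sol_open h := A.sol_open h
  sol_mem h p hp := A.sol_mem h p hp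
  sol_congr h he := A.sol_congr h fun p hp => by
    show (G p).symm _ = (G p).symm _
    rw [he hp]
  sol_mono h hN hs := A.sol_mono h hN hs
  sol_local h := A.sol_local h
  nice := by
    intro p hp O hO
    obtain ⟨N, h1, h2, h3, h4, h5, h6⟩ := A.nice p hp O hO
    refine ⟨N, h1, h2, h3, h4, h5, fun q hq w hw => ?_⟩
    obtain ⟨y, h7, h8⟩ := h6 q hq _ hw
    refine ⟨fun p => G p (y p), ?_, ?_⟩
    · simpa only [Equiv.symm_apply_apply] using h7
    · show G q (y q) = w
      rw [h8, Equiv.apply_symm_apply]
  unique := by
    intro N y y' p hN hX h h' hp he q hq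
    have := A.unique hN hX h h' hp (by rw [he]) hq
    exact (G q).symm.injective this

variable {A : LS E W} {G : E → W ≃ W'} {T : Type*} [TopologicalSpace T] {h : T → E} {S : Set T}

theorem LS.gauge_par {u : T → W'} :
    (A.gauge G).Par h S u ↔ A.Par h S (fun t => (G (h t)).symm (u t)) := by
  constructor
  · intro hu t ht
    obtain ⟨N, y, hN, hs, hev⟩ := hu t ht
    refine ⟨N, _, hN, hs, ?_⟩
    filter_upwards [hev] with s h1
    rw [h1]
  · intro hu t ht
    obtain ⟨N, y, hN, hs, hev⟩ := hu t ht
    refine ⟨N, fun p => G p (y p), hN, ?_, ?_⟩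
    · show A.sol N fun p => (G p).symm (G p (y p))
      simpa only [Equiv.symm_apply_apply] using hs
    · filter_upwards [hev] with s h1
      rw [← h1, Equiv.apply_symm_apply]

theorem LS.gauge_par' {u : T → W} :
    (A.gauge G).Par h S (fun t => G (h t) (u t)) ↔ A.Par h S u := by
  rw [LS.gauge_par]
  simp only [Equiv.symm_apply_apply]

end

section Lin

variable {E W W' : Type*} [TopologicalSpace E] [AddCommGroup W] [Module ℂ W] [AddCommGroup W']
  [Module ℂ W'] {A : LS E W} {G : E → W ≃ₗ[ℂ] W'}

theorem LS.Lin.gauge (hA : A.Lin) : (A.gauge fun p => (G p).toEquiv).Lin where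
  add {N y y'} h h' := by
    have := hA.add h h'
    refine A.sol_congr this fun p _ => ?_
    exact ((G p).symm.map_add (y p) (y' p)).symm
  smul {N y} c h := by
    have := hA.smul c h
    refine A.sol_congr this fun p _ => ?_
    exact ((G p).symm.map_smul c (y p)).symm
  zero {N} h := by
    refine A.sol_congr (hA.zero h) fun p _ => ?_
    exact ((G p).symm.map_zero).symm

end Lin

end Pool.Agent.QC
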