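import Pool.Agent.QC.LS.Lift

/-!
# Extension of parallel sections along a retraction
-/

set_option autoImplicit false

namespace Pool.Agent.QC

open Set Filter Topology

variable {E W : Type*} [TopologicalSpace E] {A : LS E W} {T : Type*} [AddCommGroup T]
  [Module ℝ T] [TopologicalSpace T] [IsTopologicalAddGroup T] [ContinuousSMul ℝ T]

/-- Extension along a map `r : S → S₀` such that the segments from `r z` to `z` are in `S`. -/
theorem LS.Par.retract {h : T → E} {S S₀ : Set T} {u₀ : T → W} {r : T → T}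
    (hr : ContinuousOn r S) (hr0 : MapsTo r S S₀)
    (hseg : ∀ z ∈ S, ∀ t ∈ Icc (0 : ℝ) 1, r z + t • (z - r z) ∈ S) (hh : ContinuousOn h S)
    (hX : MapsTo h S A.X) (hu : A.Par h S₀ u₀) :
    ∃ u, A.Par h S u ∧ ∀ z ∈ S, r z = z → u z = u₀ z := by
  set H : T × ℝ → E := fun p => h (r p.1 + p.2 • (p.1 - r p.1)) with hH
  have hg : ContinuousOn (fun p : T × ℝ => r p.1 + p.2 • (p.1 - r p.1)) (S ×ˢ Icc (0 : ℝ) 1) := by
    have h1 : ContinuousOn (fun p : T × ℝ => r p.1) (S ×ˢ Icc (0 : ℝ) 1) :=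
      hr.comp continuousOn_fst fun p hp => hp.1
    exact h1.add (continuousOn_snd.smul (continuousOn_fst.sub h1))
  have hm : MapsTo (fun p : T × ℝ => r p.1 + p.2 • (p.1 - r p.1)) (S ×ˢ Icc (0 : ℝ) 1) S :=
    fun p hp => hseg p.1 hp.1 p.2 hp.2
  have hHc : ContinuousOn H (S ×ˢ Icc (0 : ℝ) 1) := hh.comp hg hm
  have hHX : MapsTo H (S ×ˢ Icc (0 : ℝ) 1) A.X := hX.comp hm
  have hu0 : A.Par (fun t => H (t, 0)) S (u₀ ∘ r) := by
    refine (hu.comp hr hr0).congr_map fun z _ => ?_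
    simp [hH]
  obtain ⟨U, hU, hU0⟩ := LS.Par.lift hHc hHX hu0
  refine ⟨fun z => U (z, 1), ?_, ?_⟩
  · have h2 := hU.comp (g := fun z : T => (z, (1 : ℝ))) (R := S)
      (Continuous.prodMk_left (1 : ℝ)).continuousOn (fun z hz => ⟨hz, by simp⟩)
    refine h2.congr_map fun z _ => ?_
    simp [hH]
  · intro z hz hrz
    have hm' : MapsTo (fun s : ℝ => (z, s)) (Icc (0 : ℝ) 1) (S ×ˢ Icc (0 : ℝ) 1) :=
      fun s hs => ⟨hz, hs⟩
    have h3 := hU.comp (g := fun s : ℝ => (z, s)) (R := Icc 0 1)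
      (Continuous.prodMk_right z).continuousOn hm'
    have h4 : A.Par (fun _ : ℝ => h z) (Icc (0 : ℝ) 1) (fun s => U (z, s)) := by
      refine h3.congr_map fun s _ => ?_
      simp only [hH, Function.comp, hrz, sub_self, smul_zero, add_zero]
    have hzS₀ : z ∈ S₀ := by
      have := hr0 hz
      rwa [hrz] at this
    obtain ⟨N, y, hN, hy, hev⟩ := hu z hzS₀
    have h5 : A.Par (fun _ : ℝ => h z) (Icc (0 : ℝ) 1) (fun _ => u₀ z) := by
      refine (LS.Par.of_sol (h := fun _ : ℝ => h z) hy (fun _ _ => hN)).congr fun s _ => ?_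
      exact (hev.self_of_nhdsWithin hzS₀).symm
    have h6 := LS.Par.unique isPreconnected_Icc continuousOn_const (fun _ _ => hX hz) h4 h5
      (t := 0) (by simp) (by
        show U (z, 0) = u₀ z
        rw [hU0 z hz, Function.comp, hrz])
    exact h6 (by simp : (1 : ℝ) ∈ Icc (0 : ℝ) 1)

end Pool.Agent.QC
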