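import Pool.Agent.QC.LS.Lift

/-!
# Sections over a product `S × H`, `H` star shaped
-/

set_option autoImplicit false

namespace Pool.Agent.QC

open Set Filter Topology

variable {E W : Type*} [TopologicalSpace E] {A : LS E W}

/-- A section over `S × {t}` extends to `S × H` if `H` is star shaped. -/
theorem LS.Par.exists_prod_star {T V : Type*} [TopologicalSpace T] [AddCommGroup V] [Module ℝ V]
    [TopologicalSpace V] [IsTopologicalAddGroup V] [ContinuousSMul ℝ V] {h : T × V → E}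
    {S : Set T} {H : Set V} {p t : V} (hH : StarConvex ℝ p H) (hp : p ∈ H) (ht : t ∈ H)
    (hh : ContinuousOn h (S ×ˢ H)) (hX : MapsTo h (S ×ˢ H) A.X) {u₀ : T → W}
    (hu : A.Par (fun z => h (z, t)) S u₀) :
    ∃ u : T × V → W, A.Par h (S ×ˢ H) u ∧ ∀ z ∈ S, u (z, t) = u₀ z := by
  have hseg : ∀ v ∈ H, ∀ s ∈ Icc (0 : ℝ) 1, p + s • (v - p) ∈ H := by
    intro v hv s hs
    have h1 := hH hv (sub_nonneg.mpr hs.2) hs.1 (sub_add_cancel 1 s)
    have h2 : p + s • (v - p) = (1 - s) • p + s • v := by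
      rw [smul_sub, sub_smul, one_smul]
      abel
    rw [h2]
    exact h1
  have hrev : ∀ v : V, ∀ s : ℝ, v + (1 - s) • (p - v) = p + s • (v - p) := by
    intro v s
    rw [sub_smul, one_smul, smul_sub, smul_sub]
    abel
  -- from `t` to `p`
  have g1 : Continuous fun x : T × ℝ => (x.1, t + x.2 • (p - t)) := by fun_prop
  have m1 : MapsTo (fun x : T × ℝ => (x.1, t + x.2 • (p - t))) (S ×ˢ Icc (0 : ℝ) 1) (S ×ˢ H) := by
    rintro ⟨z, s⟩ ⟨hz, hs0, hs1⟩
    refine ⟨hz, ?_⟩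
    have h1 := hseg t ht (1 - s) ⟨sub_nonneg.2 hs1, by linarith⟩
    rw [← hrev t (1 - s), sub_sub_cancel] at h1
    exact h1
  have c1 : ContinuousOn (h ∘ fun x : T × ℝ => (x.1, t + x.2 • (p - t))) (S ×ˢ Icc (0 : ℝ) 1) :=
    hh.comp g1.continuousOn m1
  obtain ⟨v1, hv1, hv10⟩ := LS.Par.lift c1 (hX.comp m1) (u₀ := u₀)
    (hu.congr_map fun z _ => by simp)
  -- from `p` to `H`
  have g2 : Continuous fun x : (T × V) × ℝ => (x.1.1, p + x.2 • (x.1.2 - p)) := by fun_prop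
  have m2 : MapsTo (fun x : (T × V) × ℝ => (x.1.1, p + x.2 • (x.1.2 - p)))
      ((S ×ˢ H) ×ˢ Icc (0 : ℝ) 1) (S ×ˢ H) := by
    rintro ⟨⟨z, v⟩, s⟩ ⟨⟨hz, hv⟩, hs⟩
    exact ⟨hz, hseg v hv s hs⟩
  have c2 : ContinuousOn (h ∘ fun x : (T × V) × ℝ => (x.1.1, p + x.2 • (x.1.2 - p)))
      ((S ×ˢ H) ×ˢ Icc (0 : ℝ) 1) := hh.comp g2.continuousOn m2
  have b2 : A.Par (fun x : T × V => (h ∘ fun x : (T × V) × ℝ =>
      (x.1.1, p + x.2 • (x.1.2 - p))) (x, 0)) (S ×ˢ H) (fun x => v1 (x.1, 1)) := by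
    have h1 := hv1.comp (g := fun x : T × V => (x.1, (1 : ℝ))) (R := S ×ˢ H)
      (by fun_prop) (fun x hx => ⟨hx.1, zero_le_one, le_rfl⟩)
    refine h1.congr_map fun x _ => ?_
    simp
  obtain ⟨v2, hv2, hv20⟩ := LS.Par.lift c2 (hX.comp m2) b2
  refine ⟨fun x => v2 (x, 1), ?_, fun z hz => ?_⟩
  · have h1 := hv2.comp (g := fun x : T × V => (x, (1 : ℝ))) (R := S ×ˢ H)
      (Continuous.prodMk_left (1 : ℝ)).continuousOn (fun x hx => ⟨hx, zero_le_one, le_rfl⟩)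
    refine h1.congr_map fun x _ => ?_
    simp
  · have k1 : A.Par (fun s : ℝ => h (z, p + s • (t - p))) (Icc 0 1) (fun s => v2 ((z, t), s)) := by
      have h1 := hv2.comp (g := fun s : ℝ => ((z, t), s)) (R := Icc (0 : ℝ) 1)
        (by fun_prop) (fun s hs => ⟨⟨hz, ht⟩, hs⟩)
      exact h1
    have k2 : A.Par (fun s : ℝ => h (z, p + s • (t - p))) (Icc 0 1) (fun s => v1 (z, 1 - s)) := by
      have h1 := hv1.comp (g := fun s : ℝ => (z, 1 - s)) (R := Icc (0 : ℝ) 1)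
        (by fun_prop) (fun s hs => ⟨hz, sub_nonneg.2 hs.2, by linarith [hs.1]⟩)
      refine h1.congr_map fun s _ => ?_
      show h (z, t + (1 - s) • (p - t)) = _
      rw [hrev]
    have k3 : ContinuousOn (fun s : ℝ => h (z, p + s • (t - p))) (Icc 0 1) :=
      hh.comp (f := fun s : ℝ => (z, p + s • (t - p))) (by fun_prop)
        (fun s hs => ⟨hz, hseg t ht s hs⟩)
    have k4 := LS.Par.unique isPreconnected_Icc k3
      (fun s hs => hX ⟨hz, hseg t ht s hs⟩) k1 k2 (left_mem_Icc.mpr zero_le_one)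
      (by simpa using hv20 (z, t) ⟨hz, ht⟩)
    have k5 := k4 (right_mem_Icc.mpr zero_le_one)
    simp only [sub_self] at k5
    exact k5.trans (hv10 z hz)

end Pool.Agent.QC
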