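import Mathlib

/-!
# Abstract local systems and parallel sections

`LS E W` is a locally constant sheaf of sets on the open part `X` of `E` whose sections are
functions with values in `W`.  `A.Par h S u`: the function `u` on `S ⊆ T` is parallel over the
map `h : T → E`.
-/

namespace Pool.Agent.QC

open Set Filter Topology

/-- A local system of sets on `E` with values in `W`, given by its local solutions. -/
structure LS (E W : Type*) [TopologicalSpace E] where
  /-- the regular points -/
  X : Set E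
  /-- the fibre at a point -/
  V : E → Set W
  /-- `sol N y`: `y` is a solution on the open set `N` -/
  sol : Set E → (E → W) → Prop
  isOpen_X : IsOpen X
  sol_open : ∀ {N : Set E} {y : E → W}, sol N y → IsOpen N
  sol_mem : ∀ {N : Set E} {y : E → W}, sol N y → ∀ p ∈ N, y p ∈ V p
  sol_congr : ∀ {N : Set E} {y y' : E → W}, sol N y → EqOn y y' N → sol N y'
  sol_mono : ∀ {N N' : Set E} {y : E → W}, sol N y → IsOpen N' → N' ⊆ N → sol N' y
  sol_local : ∀ {N : Set E} {y : E → W}, (∀ p ∈ N, ∃ N', p ∈ N' ∧ N' ⊆ N ∧ sol N' y) → sol N y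
  nice : ∀ p ∈ X, ∀ O ∈ 𝓝 p, ∃ N, IsOpen N ∧ p ∈ N ∧ N ⊆ O ∧ N ⊆ X ∧ IsPreconnected N ∧
    ∀ q ∈ N, ∀ w ∈ V q, ∃ y, sol N y ∧ y q = w
  unique : ∀ {N : Set E} {y y' : E → W} {p : E}, IsPreconnected N → N ⊆ X → sol N y → sol N y' →
    p ∈ N → y p = y' p → EqOn y y' N

/-- `u` is parallel on `S` over the map `h`: near every point of `S` it is `y ∘ h` for a local
solution `y`. -/
def LS.Par {E W : Type*} [TopologicalSpace E] (A : LS E W) {T : Type*} [TopologicalSpace T]
    (h : T → E) (S : Set T) (u : T → W) : Prop :=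
  ∀ t ∈ S, ∃ N y, h t ∈ N ∧ A.sol N y ∧ ∀ᶠ s in 𝓝[S] t, u s = y (h s)

/-- The local system is linear: solutions can be added and multiplied by scalars. -/
structure LS.Lin {E W : Type*} [TopologicalSpace E] [AddCommGroup W] [Module ℂ W]
    (A : LS E W) : Prop where
  add : ∀ {N : Set E} {y y' : E → W}, A.sol N y → A.sol N y' → A.sol N (y + y')
  smul : ∀ {N : Set E} {y : E → W} (c : ℂ), A.sol N y → A.sol N (c • y)
  zero : ∀ {N : Set E}, IsOpen N → A.sol N 0

end Pool.Agent.QC
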